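import Pool.Agent.Helper488_fb.Asy
import Pool.Agent.H370R2.Expl1

/-!
# Montgomery's form factor has mean at least `0.67` near every real point, unconditionally

By Montgomery's theorem the form factor `F(α)` of the zeros of zeta is known on `(-1, 1)`, and the
pair correlation conjecture is essentially the statement that `F(α) = 1 + o(1)` for `|α| ≥ 1`.
No hypothesis is assumed here: `F` is the form factor of all the nontrivial zeros, on or off the
critical line.  Let `0 < lam < r ≤ 1`.  For all large `T`, every short interval `(X, Y]` of length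
at least `T ^ r` in `[T + 1, 2T - 1]` and *every* real `b`, the mean of `F` on
`[b - lam, b + lam]`, with respect to the probability density of the self-convolution of the
Montgomery-Taylor window, is at least `2 - c(lam) - ε`, with `c(1) = c_MT⁻¹ = 1.3275…`; so the mean
is at least `0.6724` near every `b` if `lam` is near `1`, and it is bounded below by a positive
constant for every `lam ≥ 0.5525`.  Moreover the proportion of simple critical zeros is at least
`2 - (c(lam) + ε) / n - (2 / n²) ∑_{k < n} (n - k) mean(k b)` for all `n` and `b`; so if the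
means near `b, 2b, …, (n - 1) b` are at most `1 + δ`, as predicted by the pair correlation
conjecture, then the proportion is at least `1 - (c(lam) - 1 + ε) / n - δ` (`1 - 0.3276 / n - δ`).

Idea of the proof.  The trace inequality is applied to the positive definite kernel
`φ(z) (1/n) ∑_j cos((j - (n - 1)/2) b z log T)`, where `φ` is the Montgomery-Taylor kernel.
-/

open Filter Topology Complex MeasureTheory

namespace Pool.Agent.Results.MP_f58427_nt.FormFactorEverywhere

/-- the nontrivial zeros of zeta with ordinate in `(X, Y]` -/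
def zeros (X Y : ℝ) : Set ℂ :=
  {s : ℂ | riemannZeta s = 0 ∧ 0 < s.re ∧ s.re < 1 ∧ X < s.im ∧ s.im ≤ Y}

/-- the multiplicity of a zero -/
noncomputable def mult (s : ℂ) : ℕ := analyticOrderNatAt riemannZeta s

/-- the number of zeros with ordinate in `(X, Y]`, counted with multiplicity -/
noncomputable def N (X Y : ℝ) : ℕ := ∑ᶠ s ∈ zeros X Y, mult s

/-- the number of distinct zeros with ordinate in `(X, Y]` -/
noncomputable def Nd (X Y : ℝ) : ℕ := (zeros X Y).ncard

/-- the number of simple zeros on the critical line with ordinate in `(X, Y]` -/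
noncomputable def Ns (X Y : ℝ) : ℕ :=
  {s : ℂ | s ∈ zeros X Y ∧ s.re = 1 / 2 ∧ mult s = 1}.ncard

/-- the form factor of the zeros with ordinate in `(X, Y]`,
`N⁻¹ ∑ T ^ (α (ρ - ρ')) exp ((ρ - ρ')² / 4)`, the sum over all ordered pairs of zeros, counted with
multiplicity (it is real and even in `α`) -/
noncomputable def F (T X Y α : ℝ) : ℂ :=
  (N X Y : ℂ)⁻¹ * ∑ᶠ s ∈ zeros X Y, ∑ᶠ s' ∈ zeros X Y,
    (mult s : ℂ) * (mult s' : ℂ) * ((T : ℂ) ^ ((α : ℂ) * (s - s')) * cexp ((s - s') ^ 2 / 4))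

/-- the self-convolution of the Montgomery-Taylor window
`cos (√2 x) / (√2 sin (1/√2))`, `|x| ≤ 1/2`; it is a probability density on `[-1, 1]` -/
noncomputable def R (α : ℝ) : ℝ :=
  ((1 - |α|) * Real.cos (Real.sqrt 2 * |α|) + Real.sin (Real.sqrt 2 * (1 - |α|)) / Real.sqrt 2) /
    (4 * Real.sin (1 / Real.sqrt 2) ^ 2)

/-- the mean of the form factor on `[b - lam, b + lam]` with respect to the density `R` -/
noncomputable def mean (T X Y lam b : ℝ) : ℝ :=
  ∫ α in (-1 : ℝ)..1, R α * (F T X Y (b + lam * α)).re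

/-- the Montgomery-Taylor constant -/
noncomputable def cMT : ℝ :=
  Real.sqrt 2 * Real.tan (1 / Real.sqrt 2) / (1 + Real.tan (1 / Real.sqrt 2) / Real.sqrt 2)

/-- the constant `R(0) / lam + lam (cMT⁻¹ - R(0))`; `c 1 = cMT⁻¹` -/
noncomputable def c (lam : ℝ) : ℝ := R 0 / lam + lam * (cMT⁻¹ - R 0)

lemma zeros_eq (X Y : ℝ) : zeros X Y = H370.zset riemannZeta X Y := by
  ext s
  simp only [zeros, H370.zset, Set.mem_ofPred_eq]
  tauto

/-- the sets of zeros that are summed over are finite -/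
theorem zeros_finite (X Y : ℝ) (h : 0 < X) : (zeros X Y).Finite := by
  rw [zeros_eq]
  exact H370.zset_finite' H370.good_zeta X Y h

lemma N_eq (X Y : ℝ) : N X Y = H370.NN riemannZeta X Y := by
  unfold N H370.NN H370.mult mult
  rw [zeros_eq]

lemma Nd_eq (X Y : ℝ) : Nd X Y = H370.Nd riemannZeta X Y := by
  unfold Nd H370.Nd
  rw [zeros_eq]

lemma Ns_eq (X Y : ℝ) : Ns X Y = H370.Ns riemannZeta X Y := by
  unfold Ns H370.Ns H370.mult mult
  rw [zeros_eq]

lemma R_eq {α : ℝ} (h : |α| ≤ 1) : R α = H370.Rf α := by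
  unfold R H370.Rf
  have h2 : Real.sqrt 2 ^ 2 = 2 := Real.sq_sqrt (by norm_num)
  rw [if_pos h, mul_pow, h2]
  congr 1
  ring

lemma c_eq (lam : ℝ) : c lam = H370.SI.cc lam := by
  have h1 : cMT⁻¹ = H370.cMTinv := H370.cMTinv_eq
  rw [H370.SI.cc_eq]
  unfold c
  rw [h1, R_eq (by simp)]
  ring

lemma F_eq (T X Y α : ℝ) (hX : 1 ≤ X) (hT : 0 < T) :
    F T X Y α = (((N X Y : ℝ)⁻¹ * ((Real.sqrt Real.pi)⁻¹ *
      H370.JJ riemannZeta X Y (α * Real.log T)) : ℝ) : ℂ) := by
  have hpi : (Real.sqrt Real.pi : ℂ) ≠ 0 := by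
    rw [Ne, Complex.ofReal_eq_zero]; positivity
  have hT' : (T : ℂ) ≠ 0 := by exact_mod_cast hT.ne'
  unfold F
  rw [zeros_eq, H370.finsum_Zf H370.good_zeta hX]
  push_cast
  rw [H370.JJ_eq H370.good_zeta hX, inv_mul_cancel_left₀ hpi]
  congr 1
  refine Finset.sum_congr rfl fun s _ => ?_
  rw [H370.finsum_Zf H370.good_zeta hX]
  refine Finset.sum_congr rfl fun s' _ => ?_
  have e1 : (T : ℂ) ^ ((α : ℂ) * (s - s')) = cexp (I * ((α * Real.log T : ℝ) : ℂ) *
      (H370.zz s - H370.zz s')) := by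
    rw [Complex.cpow_def_of_ne_zero hT', ← Complex.ofReal_log hT.le]
    congr 1
    unfold H370.zz
    push_cast
    linear_combination ((Real.log T : ℂ) * α * (s - s')) * I_sq
  have e2 : (s - s') ^ 2 / 4 = -(H370.zz s - H370.zz s') ^ 2 / 4 := by
    unfold H370.zz
    linear_combination ((s - s') ^ 2 / 4) * I_sq
  rw [e1, e2]
  rfl

/-- the form factor is real and nonnegative, and even -/
theorem F_props (T X Y α : ℝ) (hX : 1 ≤ X) (hT : 0 < T) :
    (F T X Y α).im = 0 ∧ 0 ≤ (F T X Y α).re ∧ F T X Y (-α) = F T X Y α := by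
  rw [F_eq T X Y α hX hT, F_eq T X Y (-α) hX hT]
  refine ⟨Complex.ofReal_im _, ?_, ?_⟩
  · rw [Complex.ofReal_re]
    have h2 : 0 ≤ H370.JJ riemannZeta X Y (α * Real.log T) := by
      unfold H370.JJ
      exact integral_nonneg fun t => by positivity
    positivity
  · rw [neg_mul, H370.JJ_even H370.good_zeta hX]

/-- `R` is nonnegative on `[-1, 1]` and its integral is `1` -/
theorem R_props : (∀ α, |α| ≤ 1 → 0 ≤ R α) ∧ ∫ α in (-1 : ℝ)..1, R α = 1 := by
  refine ⟨fun α h => by rw [R_eq h]; exact H370.Rf_nonneg α, ?_⟩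
  have h1 : ∫ α in (-1 : ℝ)..1, R α = ∫ α in (-1 : ℝ)..1, H370.Rf α := by
    refine intervalIntegral.integral_congr fun α hα => ?_
    rw [Set.uIcc_of_le (by norm_num)] at hα
    exact R_eq (abs_le.2 hα)
  have h2 := H370.kap_sq 0
  rw [H370.kap_zero] at h2
  simp only [mul_zero, zero_mul, Complex.exp_zero, mul_one, one_pow] at h2
  rw [intervalIntegral.integral_ofReal] at h2
  rw [h1]
  exact_mod_cast h2.symm

lemma mean_eq (T X Y lam b : ℝ) (hX : 1 ≤ X) (hT : 0 < T) :
    mean T X Y lam b = (N X Y : ℝ)⁻¹ *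
      Helper488FB.QC riemannZeta (lam * Real.log T) X Y (b * Real.log T) := by
  unfold mean Helper488FB.QC
  rw [← intervalIntegral.integral_const_mul]
  refine intervalIntegral.integral_congr fun α hα => ?_
  rw [Set.uIcc_of_le (by norm_num)] at hα
  rw [R_eq (abs_le.2 hα), F_eq T X Y _ hX hT, Complex.ofReal_re]
  have : (b + lam * α) * Real.log T = b * Real.log T + lam * Real.log T * α := by ring
  rw [this]
  ring

lemma R0_num : 1.00611 ≤ R 0 ∧ R 0 ≤ 1.00614 := by
  obtain ⟨h1, h2⟩ := H370.Expl.exp_num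
  rw [abs_le] at h1 h2
  set S : ℝ := Real.sqrt 2 * Real.sin (1 / Real.sqrt 2) with hS
  set Q : ℝ := Real.cos (1 / Real.sqrt 2) with hQ
  have hs : Real.sqrt 2 ^ 2 = 2 := Real.sq_sqrt (by norm_num)
  have hs0 : Real.sqrt 2 ≠ 0 := by positivity
  have h3 : Real.sin (Real.sqrt 2) / Real.sqrt 2 = S * Q := by
    have e : Real.sqrt 2 = 2 * (1 / Real.sqrt 2) := by
      field_simp
      exact hs
    have e2 : Real.sin (Real.sqrt 2) = 2 * Real.sin (1 / Real.sqrt 2) * Q := by
      conv_lhs => rw [e]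
      rw [Real.sin_two_mul]
    rw [e2, hS, div_eq_iff hs0]
    have : Real.sqrt 2 * Real.sin (1 / Real.sqrt 2) * Q * Real.sqrt 2 =
        Real.sqrt 2 ^ 2 * Real.sin (1 / Real.sqrt 2) * Q := by ring
    rw [this, hs]
  have h4 : 4 * Real.sin (1 / Real.sqrt 2) ^ 2 = 2 * S ^ 2 := by
    rw [hS, mul_pow, hs]; ring
  unfold R
  simp only [abs_zero, sub_zero, mul_zero, Real.cos_zero, mul_one]
  rw [h3, h4]
  have hSl : 0.918722 ≤ S := by norm_num at h2 ⊢; linarith [h2.1]
  have hSu : S ≤ 0.918729 := by norm_num at h2 ⊢; linarith [h2.2]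
  have hQl : 0.760241 ≤ Q := by norm_num at h1 ⊢; linarith [h1.1]
  have hQu : Q ≤ 0.760246 := by norm_num at h1 ⊢; linarith [h1.2]
  have hS2 : 0 < 2 * S ^ 2 := by positivity
  constructor
  · rw [le_div_iff₀ hS2]
    nlinarith
  · rw [div_le_iff₀ hS2]
    nlinarith

lemma c_num : c 1 ≤ 1.327503 ∧ ∀ lam : ℝ, 0.5525 ≤ lam → lam ≤ 1 → c lam < 2 := by
  have h1 : cMT⁻¹ = H370.cMTinv := H370.cMTinv_eq
  have h2 := H370.Expl.cMTinv_num
  obtain ⟨h3, h4⟩ := R0_num
  constructor
  · unfold c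
    rw [h1]
    linarith
  · intro lam hl hl1
    have hl0 : 0 < lam := by linarith
    unfold c
    rw [h1]
    have h5 : R 0 / lam ≤ 1.00614 / lam := div_le_div_of_nonneg_right h4 hl0.le
    have h6 : lam * (H370.cMTinv - R 0) ≤ lam * 0.321393 :=
      mul_le_mul_of_nonneg_left (by linarith) hl0.le
    have h7 : 1.00614 / lam + lam * 0.321393 < 2 := by
      rw [← sub_pos]
      have : 2 - (1.00614 / lam + lam * 0.321393) =
          (2 * lam - 1.00614 - 0.321393 * lam ^ 2) / lam := by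
        field_simp
        ring
      rw [this]
      apply div_pos _ hl0
      nlinarith
    linarith

/-- **The form factor near an arbitrary point.**  Let `0 < lam < r ≤ 1` and `ε > 0`.  For all large
`T`, all `T + 1 ≤ X`, `Y ≤ 2T - 1` with `Y - X ≥ T ^ r` and all real `b`, the mean of the form
factor of the zeros with ordinate in `(X, Y]` near `b` is at least `2 - c(lam) - ε`, and for all
`n ≥ 1` the proportion of simple critical zeros (and twice the proportion of distinct zeros, minus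
`1`) is at least `2 - (c(lam) + ε) / n - (2 / n²) ∑_{1 ≤ k < n} (n - k) mean(k b)`. -/
theorem result :
    (∀ r lam ε : ℝ, 0 < lam → lam < r → r ≤ 1 → 0 < ε → ∃ T₀ : ℝ, ∀ T : ℝ, T₀ ≤ T →
      ∀ X Y : ℝ, T + 1 ≤ X → Y ≤ 2 * T - 1 → T ^ r ≤ Y - X → 0 < N X Y ∧ ∀ b : ℝ,
        2 - c lam - ε ≤ mean T X Y lam b ∧
        ∀ n : ℕ, 1 ≤ n →
          2 - (c lam + ε) / n -
            2 / (n : ℝ) ^ 2 * ∑ k ∈ Finset.Ico 1 n, ((n : ℝ) - k) * mean T X Y lam (k * b) ≤
              (Ns X Y : ℝ) / N X Y ∧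
          2 - (c lam + ε) / n -
            2 / (n : ℝ) ^ 2 * ∑ k ∈ Finset.Ico 1 n, ((n : ℝ) - k) * mean T X Y lam (k * b) ≤
              2 * ((Nd X Y : ℝ) / N X Y) - 1) ∧
    (2 - c 1 ≥ 0.672497 ∧ ∀ lam : ℝ, 0.5525 ≤ lam → lam ≤ 1 → 0 < 2 - c lam) := by
  refine ⟨?_, ?_⟩
  · intro r lam ε h0 h1 hr hε
    obtain ⟨T0, hT0, h⟩ := Helper488FB.lower H370.good_zeta r lam ε h0 h1 hr hε
    refine ⟨T0, fun T hT X Y hX hY hXY => ?_⟩
    have hT10 : 10 ≤ T := hT0.trans hT
    have hX1 : 1 ≤ X := by linarith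
    have hTp : 0 < T := by linarith
    obtain ⟨hN, hmain⟩ := h T hT X Y hX hY hXY
    rw [← N_eq] at hN
    refine ⟨by exact_mod_cast hN, fun b => ?_⟩
    have hkey : ∀ n : ℕ, 1 ≤ n →
          2 - (c lam + ε) / n -
            2 / (n : ℝ) ^ 2 * ∑ k ∈ Finset.Ico 1 n, ((n : ℝ) - k) * mean T X Y lam (k * b) ≤
              (Ns X Y : ℝ) / N X Y ∧
          2 - (c lam + ε) / n -
            2 / (n : ℝ) ^ 2 * ∑ k ∈ Finset.Ico 1 n, ((n : ℝ) - k) * mean T X Y lam (k * b) ≤
              2 * ((Nd X Y : ℝ) / N X Y) - 1 := by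
      intro n hn
      have hn0 : (0 : ℝ) < n := by exact_mod_cast hn
      obtain ⟨g1, g2⟩ := hmain n (b * Real.log T)
      rw [← N_eq, ← Ns_eq, ← c_eq] at g1
      rw [← N_eq, ← Nd_eq, ← c_eq] at g2
      have hs : ∑ k ∈ Finset.Ico 1 n, ((n : ℝ) - k) *
          Helper488FB.QC riemannZeta (lam * Real.log T) X Y (k * (b * Real.log T)) =
          (N X Y : ℝ) * ∑ k ∈ Finset.Ico 1 n, ((n : ℝ) - k) * mean T X Y lam (k * b) := by
        rw [Finset.mul_sum]
        refine Finset.sum_congr rfl fun k _ => ?_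
        rw [mean_eq T X Y lam (k * b) hX1 hTp, mul_assoc (k : ℝ) b (Real.log T)]
        field_simp
      rw [hs] at g1 g2
      set S := ∑ k ∈ Finset.Ico 1 n, ((n : ℝ) - k) * mean T X Y lam (k * b) with hS
      have hnn : (0 : ℝ) < (n : ℝ) ^ 2 * (N X Y : ℝ) := by positivity
      constructor
      · have e : (Ns X Y : ℝ) / N X Y - (2 - (c lam + ε) / n - 2 / (n : ℝ) ^ 2 * S) =
            (n * ((c lam + ε) * (N X Y : ℝ)) + 2 * ((N X Y : ℝ) * S) -
              (2 * (N X Y : ℝ) - Ns X Y) * (n : ℝ) ^ 2) / ((n : ℝ) ^ 2 * (N X Y : ℝ)) := by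
          field_simp
          ring
        rw [← sub_nonneg, e]
        exact div_nonneg (by linarith) hnn.le
      · have e : 2 * ((Nd X Y : ℝ) / N X Y) - 1 - (2 - (c lam + ε) / n - 2 / (n : ℝ) ^ 2 * S) =
            (n * ((c lam + ε) * (N X Y : ℝ)) + 2 * ((N X Y : ℝ) * S) -
              (3 * (N X Y : ℝ) - 2 * Nd X Y) * (n : ℝ) ^ 2) / ((n : ℝ) ^ 2 * (N X Y : ℝ)) := by
          field_simp
          ring
        rw [← sub_nonneg, e]
        exact div_nonneg (by linarith) hnn.le
    have k3 : (Nd X Y : ℝ) / N X Y ≤ 1 := by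
      rw [div_le_one hN]
      have hfin := zeros_finite X Y (by linarith)
      have : Nd X Y ≤ N X Y := by
        unfold Nd N
        rw [finsum_mem_eq_finite_toFinset_sum _ hfin, Set.ncard_eq_toFinset_card _ hfin,
          Finset.card_eq_sum_ones]
        refine Finset.sum_le_sum fun s hs => ?_
        rw [Set.Finite.mem_toFinset] at hs
        exact H370.Loc.mult_pos' H370.good_zeta (by linarith [hs.2.2.2.1]) hs.1
      exact_mod_cast this
    refine ⟨?_, hkey⟩
    have h2 := (hkey 2 (by norm_num)).2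
    have e2 : Finset.Ico 1 2 = {1} := rfl
    rw [e2, Finset.sum_singleton] at h2
    push_cast at h2
    rw [one_mul] at h2
    norm_num at h2
    linarith
  · obtain ⟨g1, g2⟩ := c_num
    exact ⟨by linarith, fun lam h0 h1 => by linarith [g2 lam h0 h1]⟩

end Pool.Agent.Results.MP_f58427_nt.FormFactorEverywhere
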